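import Mathlib
import Pool.Prelude.Def_F_c31e40fa
import Pool.Agent.TH937.LF.Final
import Pool.Agent.TH363.CD.Upper1
import Pool.Agent.TH363.EX.Dist

/-!
# Distances to the hyperbolic parameters of `z ^ n + c` and the exponential family
-/

set_option autoImplicit false
open Metric Filter Topology Set

namespace Pool.Agent.Results.MP_af9036_an.ExponentialScale

/-- The parameters `ξ` for which `y ↦ ξ exp y` has an attracting cycle. -/
def expHyp : Set ℂ :=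
  {ξ | ∃ m y, N62a1eb23.IsAttractingCycle (fun y => ξ * Complex.exp y) m y}

/-- Every `ξ` with `a ≤ |ξ| ≤ b` is at logarithmic distance at most `δ` from `expHyp`. -/
def ExpWithin (a b δ : ℝ) : Prop :=
  ∀ ξ : ℂ, a ≤ ‖ξ‖ → ‖ξ‖ ≤ b → ∀ ε : ℝ, 0 < ε →
    ∃ s : ℂ, ‖s‖ ≤ δ + ε ∧ ξ * Complex.exp s ∈ expHyp

/-- For every `ε > 0` there is a `p` such that for all large `n` every `c` with
`a ≤ n |c| ^ (n - 1) ≤ b` is at distance at most `(δ + ε) / n` from a parameter with an attracting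
cycle of period at most `p` and multiplier of modulus at most `1 - 1 / p`. -/
def UniformlyWithin (a b δ : ℝ) : Prop :=
  ∀ ε : ℝ, 0 < ε → ∃ p n₀ : ℕ, ∀ n : ℕ, n₀ ≤ n → ∀ c : ℂ,
    a ≤ n * ‖c‖ ^ (n - 1) → n * ‖c‖ ^ (n - 1) ≤ b → ∃ c' : ℂ, ‖c' - c‖ ≤ (δ + ε) / n ∧
      ∃ m z, m ≤ p ∧ N62a1eb23.IsAttractingCycle (fun z => z ^ n + c') m z ∧
        ‖deriv (fun z => z ^ n + c')^[m] z‖ ≤ 1 - 1 / p

theorem expHyp_eq : expHyp = Pool.Agent.TH363.EX.expHyp := by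
  ext ξ
  constructor
  · rintro ⟨m, y, hm, hper, hd, hlt⟩
    have hE : (fun y => ξ * Complex.exp y) = Pool.Agent.TH363.EX.E ξ := rfl
    rw [hE, (Pool.Agent.TH363.EX.hasDeriv_E_iter ξ y m).deriv] at hlt
    obtain ⟨p, hp⟩ := exists_nat_one_div_lt (show 0 < 1 - ‖Pool.Agent.TH363.EX.DE ξ m y‖ by linarith)
    refine ⟨max m (p + 1), m, hm, le_max_left _ _, y, hper, ?_⟩
    have h1 : 1 / ((max m (p + 1) : ℕ) : ℝ) ≤ 1 / ((p:ℝ) + 1) := by
      apply one_div_le_one_div_of_le (by positivity)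
      have : ((p + 1 : ℕ) : ℝ) ≤ ((max m (p + 1) : ℕ) : ℝ) := by exact_mod_cast le_max_right _ _
      push_cast at this ⊢
      exact this
    linarith
  · rintro ⟨p, m, hm, hmp, y, hper, hmul⟩
    have hp0 : (0:ℝ) < 1 / p := by
      have : (1:ℝ) ≤ p := by exact_mod_cast hm.trans hmp
      positivity
    exact ⟨m, y, hm, hper, (Pool.Agent.TH363.EX.hasDeriv_E_iter ξ y m).differentiableAt, by
      have hE : (fun y => ξ * Complex.exp y) = Pool.Agent.TH363.EX.E ξ := rfl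
      rw [hE, (Pool.Agent.TH363.EX.hasDeriv_E_iter ξ y m).deriv]
      linarith⟩

/-- The asymptotic distance to the hyperbolic parameters at the scale `1 / n` is given by the
exponential family. -/
theorem result :
    -- on every annulus the two asymptotic distances agree
    (∀ a b δ : ℝ, 0 < a → 0 ≤ δ → (ExpWithin a b δ ↔ UniformlyWithin a b δ)) ∧
    -- in the whole Multibrot set
    ∀ δ : ℝ, 0 ≤ δ → (∀ a b : ℝ, 0 < a → ExpWithin a b δ) →
      ∀ ε : ℝ, 0 < ε → ∃ p n₀ : ℕ, ∀ n : ℕ, n₀ ≤ n → ∀ c ∈ N62a1eb23.multibrotSet n,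
        ∃ c' : ℂ, ‖c' - c‖ ≤ (δ + ε) / n ∧
          ∃ m z, m ≤ p ∧ N62a1eb23.IsAttractingCycle (fun z => z ^ n + c') m z := by
  have key : ∀ a b δ : ℝ, 0 < a → 0 ≤ δ → (ExpWithin a b δ ↔ UniformlyWithin a b δ) := by
    intro a b δ ha hδ
    constructor
    · intro h ε hε
      refine Pool.Agent.TH363.EX.to_n ha hδ ?_ hε
      intro ξ hξ ε' hε'
      obtain ⟨s, hs1, hs2⟩ := h ξ hξ.1 hξ.2 ε' hε'
      exact ⟨s, hs1, by rwa [← expHyp_eq]⟩
    · intro h ξ hξa hξb ε hε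
      obtain ⟨s, hs1, hs2⟩ := Pool.Agent.TH363.EX.of_n ha hδ h (ξ := ξ) ⟨hξa, hξb⟩ hε
      exact ⟨s, hs1, by rwa [expHyp_eq]⟩
  refine ⟨key, ?_⟩
  intro δ hδ h ε hε
  obtain ⟨C, hC⟩ := Pool.Agent.TH937.LF.logFree
  set Y : ℝ := max 1 (C / ε) with hY
  have hY1 : 1 ≤ Y := le_max_left _ _
  have hYC : C ≤ ε * Y := by
    have : C / ε ≤ Y := le_max_right _ _
    rwa [div_le_iff₀ hε, mul_comm] at this
  obtain ⟨p, n₀, h1⟩ := (key (1 / 3) Y δ (by norm_num) hδ).1 (h _ _ (by norm_num)) ε hε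
  refine ⟨max p 4, max n₀ (10 ^ 6), fun n hn c hc => ?_⟩
  have hn₀ : n₀ ≤ n := (le_max_left _ _).trans hn
  have hn6 : 10 ^ 6 ≤ n := (le_max_right _ _).trans hn
  have hn2 : 2 ≤ n := le_trans (by norm_num) hn6
  have hn0 : (0:ℝ) < n := by
    have : 0 < n := by omega
    exact_mod_cast this
  rcases le_total Y (n * ‖c‖ ^ (n - 1)) with h2 | h2
  · obtain ⟨c', ⟨m, z, hm, hz⟩, hd⟩ := hC n hn2 c hc
    refine ⟨c', ?_, m, z, hm.2.trans (le_max_right _ _), hz⟩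
    have h3 : ‖c' - c‖ * (n * (1 + n * ‖c‖ ^ (n - 1))) ≤ C := hd
    rw [le_div_iff₀ hn0]
    have h4 : ‖c' - c‖ * n * Y ≤ ε * Y := by
      have h5 : ‖c' - c‖ * n * Y ≤ ‖c' - c‖ * (n * (1 + n * ‖c‖ ^ (n - 1))) := by
        rw [mul_assoc]
        gcongr
        linarith
      linarith
    have h5 := le_of_mul_le_mul_right h4 (by linarith)
    linarith
  · by_cases h3 : ∃ z, N62a1eb23.IsAttractingCycle (Pool.Agent.W747.MB.f n c) 1 z
    · obtain ⟨z, hz⟩ := h3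
      refine ⟨c, ?_, 1, z, le_trans (by norm_num) (le_max_right _ _), hz⟩
      rw [sub_self, norm_zero]
      positivity
    · have h4 := (Pool.Agent.TH363.CD.alv' hn6 hc h3).1
      obtain ⟨c', hd, m, z, hm, hz, -⟩ := h1 n hn₀ c h4 h2
      exact ⟨c', hd, m, z, hm.trans (le_max_left _ _), hz⟩

end Pool.Agent.Results.MP_af9036_an.ExponentialScale
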