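import Mathlib
import Pool.Prelude.Def_F_c31e40fa
import Pool.Agent.TH937.LF.Final

set_option autoImplicit false

namespace Pool.Agent.Results.MP_af9036_an.LogFreeDensity

/-- Density of hyperbolicity in the Multibrot sets, uniformly in the degree, at the scale
`1 / (n (1 + n |c| ^ (n - 1)))` and without logarithms: there is one constant `C` such that, in
every degree `n ≥ 2`, every `c` in the Multibrot set `M_n` is at distance at most
`C / (n (1 + n |c| ^ (n - 1)))` from a parameter `c'` such that `z ↦ z ^ n + c'` has an attracting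
cycle of period at most `4`. -/
theorem result :
    ∃ C : ℝ, ∀ n : ℕ, 2 ≤ n → ∀ c ∈ N62a1eb23.multibrotSet n, ∃ c' : ℂ,
      (∃ m z, (1 ≤ m ∧ m ≤ 4) ∧ N62a1eb23.IsAttractingCycle (fun z => z ^ n + c') m z) ∧
        ‖c' - c‖ ≤ C / (n * (1 + n * ‖c‖ ^ (n - 1))) := by
  obtain ⟨C, hC⟩ := Pool.Agent.TH937.LF.logFree
  refine ⟨C, fun n hn c hc => ?_⟩
  obtain ⟨c', h1, h2⟩ := hC n hn c hc
  refine ⟨c', h1, ?_⟩
  have hn' : (2:ℝ) ≤ n := by exact_mod_cast hn
  rw [le_div_iff₀ (by positivity)]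
  exact h2

end Pool.Agent.Results.MP_af9036_an.LogFreeDensity
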