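import Mathlib
import Pool.Prelude.Def_F_c31e40fa
import Pool.Agent.TH279.MD.Final

set_option autoImplicit false

open MeasureTheory Filter Metric

namespace Pool.Agent.Results.MP_af9036_an.MisiurewiczAllDegrees

/-- The polynomial `z ^ d + c`. -/
def f (d : ℕ) (c : ℂ) : ℂ → ℂ := fun z => z ^ d + c

/-- The filled Julia set of `z ^ d + c`. -/
def filledJulia (d : ℕ) (c : ℂ) : Set ℂ :=
  {z | ¬ Tendsto (fun n => (f d c)^[n] z) atTop (Bornology.cobounded ℂ)}

/-- Misiurewicz parameters: the critical point `0` is preperiodic and not periodic. -/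
def Misiurewicz (d : ℕ) (c : ℂ) : Prop :=
  (∃ m n : ℕ, 1 ≤ n ∧ (f d c)^[m + n] 0 = (f d c)^[m] 0) ∧ ∀ p : ℕ, 1 ≤ p → (f d c)^[p] 0 ≠ 0

/-- Density of hyperbolicity with the natural power `d / (d - 1)` of the distance at every
Misiurewicz parameter of the Multibrot set of every degree `d ≥ 3`. -/
theorem result (d : ℕ) (hd : 3 ≤ d) (c₀ : ℂ) (h₀ : Misiurewicz d c₀) :
    ∃ C : ℝ, 0 < C ∧ ∀ c ∈ N62a1eb23.multibrotSet d, c ≠ c₀ →
      -- (1) the area of the filled Julia set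
      volume (filledJulia d c) ≤ ENNReal.ofReal (C * ‖c - c₀‖ ^ (2 / ((d : ℝ) - 1))) ∧
      -- (2) the nearest superattracting parameter, with a bound of the period
      (∃ c' : ℂ, ‖c' - c‖ ≤ C * ‖c - c₀‖ ^ ((d : ℝ) / ((d : ℝ) - 1)) ∧ ∃ p : ℕ, 1 ≤ p ∧
        (f d c')^[p] 0 = 0 ∧ N62a1eb23.IsAttractingCycle (f d c') p 0 ∧
        (p : ℝ) ≤ C * (1 + |Real.log ‖c - c₀‖|) ^ 2) ∧
      -- (3) holomorphic discs through `c` in a connected open set `V` of parameters which has no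
      -- attracting cycles or is contained in the Multibrot set
      (∀ V : Set ℂ, IsOpen V → IsPreconnected V →
        ((∀ c₁ ∈ V, ¬ ∃ m z, N62a1eb23.IsAttractingCycle (f d c₁) m z) ∨
          V ⊆ N62a1eb23.multibrotSet d) →
        ∀ γ : ℂ → ℂ, DifferentiableOn ℂ γ (ball 0 1) → (∀ t ∈ ball (0 : ℂ) 1, γ t ∈ V) → γ 0 = c →
          ‖deriv γ 0‖ ≤ C * ‖c - c₀‖ ^ ((d : ℝ) / ((d : ℝ) - 1))) :=
  Pool.Agent.TH279.MD.upper (by omega) h₀.1 h₀.2

end Pool.Agent.Results.MP_af9036_an.MisiurewiczAllDegrees
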