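import Mathlib
import Pool.Prelude.Def_F_c31e40fa
import Pool.Agent.TH136.Tip.Main
import Pool.Agent.TH136.Tip.SharpC

set_option autoImplicit false

open MeasureTheory Filter Metric

namespace Pool.Agent.Results.MP_af9036_an.QuadraticDensityAtTip

/-- The quadratic polynomial `z ^ 2 + c`. -/
def f (c : ℂ) : ℂ → ℂ := fun z => z ^ 2 + c

/-- The filled Julia set of `z ^ 2 + c`. -/
def filledJulia (c : ℂ) : Set ℂ :=
  {z | ¬ Tendsto (fun n => (f c)^[n] z) atTop (Bornology.cobounded ℂ)}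

/-- Quadratic density of hyperbolicity at the tip `-2` of the Mandelbrot set: the three upper bounds
hold at every parameter `c ≠ -2` of the Mandelbrot set, and the exponent `2` is sharp in each. -/
theorem result :
    (∃ C : ℝ, 0 < C ∧ ∀ c ∈ N62a1eb23.multibrotSet 2, c ≠ -2 →
      -- (1) the area of the filled Julia set
      volume (filledJulia c) ≤ ENNReal.ofReal (C * ‖c + 2‖ ^ 2) ∧
      -- (2) the nearest superattracting parameter, with a bound of the period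
      (∃ c' : ℂ, ‖c' - c‖ ≤ C * ‖c + 2‖ ^ 2 ∧ ∃ p : ℕ, 1 ≤ p ∧ (f c')^[p] 0 = 0 ∧
        N62a1eb23.IsAttractingCycle (f c') p 0 ∧
        (p : ℝ) ≤ C * ((1 + |Real.log ‖c + 2‖|) * (1 + Real.log (1 + |Real.log ‖c + 2‖|)))) ∧
      -- (3) holomorphic discs through `c` in a connected open set `V` of parameters which has no
      -- attracting cycles or is contained in the Mandelbrot set
      (∀ V : Set ℂ, IsOpen V → IsPreconnected V →
        ((∀ c₁ ∈ V, ¬ ∃ m z, N62a1eb23.IsAttractingCycle (f c₁) m z) ∨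
          V ⊆ N62a1eb23.multibrotSet 2) →
        ∀ γ : ℂ → ℂ, DifferentiableOn ℂ γ (ball 0 1) → (∀ t ∈ ball (0 : ℂ) 1, γ t ∈ V) → γ 0 = c →
          ‖deriv γ 0‖ ≤ C * ‖c + 2‖ ^ 2)) ∧
    -- (4) sharpness
    (∃ a : ℝ, 0 < a ∧ ∀ δ : ℝ, 0 < δ → ∃ c : ℂ, c ≠ -2 ∧ ‖c + 2‖ < δ ∧
      ball c (a * ‖c + 2‖ ^ 2) ⊆ N62a1eb23.multibrotSet 2 ∧
      (∀ c' ∈ ball c (a * ‖c + 2‖ ^ 2), ∀ p : ℕ, 1 ≤ p → (f c')^[p] 0 ≠ 0) ∧
      ENNReal.ofReal (a * ‖c + 2‖ ^ 2) ≤ volume (filledJulia c)) :=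
  ⟨Pool.Agent.TH136.Tip.upper, Pool.Agent.TH136.Tip.sharp⟩

end Pool.Agent.Results.MP_af9036_an.QuadraticDensityAtTip
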